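import Mathlib
import Pool.Agent.Helper602.MK.J5b
import Pool.Agent.Y935.WR.Stm

/-!
# Statements for Waring's problem with almost all real exponents
-/

set_option autoImplicit false

namespace Pool.Agent.Y935.RE

open Finset MeasureTheory Filter
open Pool.Agent.Helper602.MK (ee)
open Pool.Agent.Y935.WR (Wt Vt Jc)

noncomputable section

/-- the lists `a_0, ..., a_(r-1)` with `a_j ∈ (q_j, 2 q_j]`, `q_j = ⌊p ^ (lam β ^ j)⌋` -/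
def blk (p β : ℝ) : ℕ → ℝ → Finset (List ℕ)
  | 0, _ => {[]}
  | r + 1, lam => ((Ioc ⌊p ^ lam⌋₊ (2 * ⌊p ^ lam⌋₊)) ×ˢ blk p β r (β * lam)).image fun t => t.1 :: t.2

/-- the sum of the `c`-th powers -/
def Sv (c : ℝ) (l : List ℕ) : ℝ := (l.map fun a : ℕ => (a : ℝ) ^ c).sum

/-- its derivative in `c` -/
def Sd (c : ℝ) (l : List ℕ) : ℝ := (l.map fun a : ℕ => (a : ℝ) ^ c * Real.log a).sum

/-- the sum of the integer parts -/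
def vl (α c : ℝ) (l : List ℕ) : ℤ := (l.map fun a : ℕ => ⌊α * (a : ℝ) ^ c⌋).sum

/-- MIN: exponential sums with `lam n ^ c`, `c` not an integer; the saving depends only on `⌊c⌋` -/
def S_MIN : Prop := ∀ (k : ℕ) (δ : ℝ), 1 ≤ k → 0 < δ → ∃ σ : ℝ, 0 < σ ∧
  ∀ (c : ℝ) (T : ℕ), (k : ℝ) < c → c < k + 1 → 2 ≤ T → ∀ᶠ P : ℕ in atTop, ∀ lam : ℝ,
    (P : ℝ) ^ (δ - c) ≤ |lam| → |lam| ≤ (P : ℝ) ^ σ → ∀ x₀ N : ℕ, P ≤ x₀ → x₀ + N ≤ T * P →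
      ‖∑ n ∈ range N, ee (lam * ((x₀ : ℝ) + n) ^ c)‖ ≤ (P : ℝ) ^ (1 - σ)

/-- LOW: the density of the values `⌊α z ^ c⌋`, `z ∈ (P, T P]`, weighted by
`sin (π α z ^ c) ^ 2`, in windows of length `M` around `v` -/
def S_LOW : Prop := ∀ (c κ : ℝ) (T : ℕ), 1 < c → 0 < κ → κ < 1 → 2 ≤ T →
  ∃ c₁ : ℝ, 0 < c₁ ∧ ∀ᶠ P : ℕ in atTop, ∀ (α : ℝ) (M : ℕ) (v : ℤ) (E : ℝ), 1 ≤ α →
    α * (P : ℝ) ^ (c - κ) ≤ M → (M : ℝ) ≤ α * (P : ℝ) ^ c → 2 * α * (P : ℝ) ^ c ≤ v →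
    (v : ℝ) ≤ α * (T * P : ℝ) ^ c / 2 →
    (∀ x₀ N : ℕ, P ≤ x₀ → x₀ + N ≤ T * P → ‖∑ n ∈ range N, ee (α * ((x₀ : ℝ) + n) ^ c)‖ ≤ E) →
    E ≤ c₁ * (M / (α * (P : ℝ) ^ (c - 1))) →
    c₁ / (α * (P : ℝ) ^ (c - 1)) ≤ ∑ z ∈ Ioc P (T * P),
      Real.sin (Real.pi * (α * (z : ℝ) ^ c)) ^ 2 * Wt M (v - ⌊α * (z : ℝ) ^ c⌋)

/-- LD: the differences of the sums of two lists of a block are large and have a logarithmic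
derivative close to one of the numbers `lam β ^ j log p` -/
def S_LD : Prop := ∀ (β c1 c2 lam B : ℝ) (r : ℕ), 0 < β → 1 < c1 → c1 ≤ c2 → β < 1 - 1 / c1 →
  0 < lam → lam ≤ 1 → ∀ᶠ p : ℕ in atTop, ∀ x ∈ blk p β r lam, ∀ y ∈ blk p β r lam, x ≠ y →
    ∃ j < r, ∀ c : ℝ, c1 ≤ c → c ≤ c2 → B ≤ |Sv c x - Sv c y| ∧
      |Sd c x - Sd c y - lam * β ^ j * Real.log p * (Sv c x - Sv c y)| ≤ 4 * |Sv c x - Sv c y|

/-- CNT: few lists of a block have sums close to that of a given one -/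
def S_CNT : Prop := ∀ (β c1 c2 lam : ℝ) (r : ℕ), 0 < β → 1 < c1 → c1 ≤ c2 → β < 1 - 1 / c1 →
  0 < lam → lam ≤ 1 → ∃ K : ℝ, 0 < K ∧ ∀ᶠ p : ℕ in atTop, ∀ c : ℝ, c1 ≤ c → c ≤ c2 →
    ∀ x ∈ blk p β r lam, ∀ V : ℝ, 0 ≤ V →
      (((blk p β r lam).filter fun y => y ≠ x ∧ |Sv c x - Sv c y| ≤ V).card : ℝ) ≤
        K * V * (p : ℝ) ^ (r * (c2 - 1 - β * c1) - lam * c1) * (blk p β r lam).card

/-- MV: the mean value over the exponent, uniform in `α ≥ 1` -/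
def S_MV : Prop := ∀ (β γ c1 c2 : ℝ) (r : ℕ), 0 < β → β < γ → γ < 1 → 1 < c1 → c1 ≤ c2 →
  β < 1 - 1 / c1 → ∃ K : ℝ, 0 < K ∧ ∀ᶠ p : ℕ in atTop, ∀ α : ℝ, 1 ≤ α →
    ∫⁻ c in Set.Icc c1 c2, (Jc (blk p β r 1 ×ˢ blk p β r γ)
      (fun t => vl α c t.1 + vl α c t.2) : ENNReal) ≤
      ENNReal.ofReal (K * (1 + Real.log p) *
        (((blk p β r 1).card * (blk p β r γ).card : ℝ) +
        ((blk p β r 1).card * (blk p β r γ).card : ℝ) ^ 2 *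
          (p : ℝ) ^ (r * (c2 - 1 - β * c1) - γ * c1)))

end

end Pool.Agent.Y935.RE
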