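import Mathlib
import Pool.Agent.Y935.RE.Stm
import Pool.Agent.Y935.WR.BC

/-!
# Almost all exponents have few coincidences
-/

set_option autoImplicit false

namespace Pool.Agent.Y935.RE

open Finset MeasureTheory Filter
open Pool.Agent.Y935.WR (Jc Jc_eq summ)
open scoped ENNReal Topology

/-- pairs of lists -/
noncomputable def AA (p β γ : ℝ) (r : ℕ) : Finset (List ℕ × List ℕ) := blk p β r 1 ×ˢ blk p β r γ

/-- values of pairs of lists -/
noncomputable def va (α c : ℝ) (t : List ℕ × List ℕ) : ℤ := vl α c t.1 + vl α c t.2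

lemma AA_card (p β γ : ℝ) (r : ℕ) :
    ((AA p β γ r).card : ℝ) = ((blk p β r 1).card * (blk p β r γ).card : ℝ) := by
  unfold AA
  rw [card_product]
  push_cast
  rfl

lemma blk_succ (p β : ℝ) (r : ℕ) (lam : ℝ) : blk p β (r + 1) lam =
    ((Ioc ⌊p ^ lam⌋₊ (2 * ⌊p ^ lam⌋₊)) ×ˢ blk p β r (β * lam)).image fun t => t.1 :: t.2 := rfl

lemma blk_card_ge {p β : ℝ} (hp : 1 ≤ p) (hβ : 0 ≤ β) (r : ℕ) : ∀ lam : ℝ, 0 ≤ lam →
    (1 / 2) ^ r * p ^ (lam * ∑ j ∈ range r, β ^ j) ≤ ((blk p β r lam).card : ℝ) := by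
  induction r with
  | zero =>
    intro lam _
    simp [blk]
  | succ r ih =>
    intro lam hlam
    have hp0 : 0 < p := by linarith
    have h1 : (blk p β (r + 1) lam).card = ⌊p ^ lam⌋₊ * (blk p β r (β * lam)).card := by
      rw [blk_succ, card_image_of_injective, card_product, Nat.card_Ioc]
      · congr 1
        omega
      · rintro ⟨a, l⟩ ⟨b, m⟩ h
        simp only [List.cons.injEq] at h
        rw [h.1, h.2]
    have h2 := ih (β * lam) (by positivity)
    have h3 : (1 / 2) * p ^ lam ≤ (⌊p ^ lam⌋₊ : ℝ) := by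
      have h4 : 1 ≤ p ^ lam := Real.one_le_rpow hp hlam
      have h5 := Nat.lt_floor_add_one (p ^ lam)
      have h6 : (1 : ℝ) ≤ (⌊p ^ lam⌋₊ : ℝ) := by
        have : 1 ≤ ⌊p ^ lam⌋₊ := Nat.one_le_floor_iff _ |>.2 h4
        exact_mod_cast this
      linarith
    rw [h1]
    push_cast
    calc (1 / 2) ^ (r + 1) * p ^ (lam * ∑ j ∈ range (r + 1), β ^ j) =
          ((1 / 2) * p ^ lam) * ((1 / 2) ^ r * p ^ (β * lam * ∑ j ∈ range r, β ^ j)) := by
          have h7 : lam * ∑ j ∈ range (r + 1), β ^ j = lam + β * lam * ∑ j ∈ range r, β ^ j := by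
            rw [Finset.sum_range_succ', mul_add, pow_zero, mul_one, add_comm, Finset.mul_sum,
              Finset.mul_sum]
            congr 1
            exact Finset.sum_congr rfl fun j _ => by ring
          rw [h7, Real.rpow_add hp0, pow_succ]
          ring
      _ ≤ (⌊p ^ lam⌋₊ : ℝ) * ((blk p β r (β * lam)).card : ℝ) := by
          have := Real.rpow_pos_of_pos hp0 lam
          have := Real.rpow_pos_of_pos hp0 (β * lam * ∑ j ∈ range r, β ^ j)
          gcongr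

lemma vl_measurable (α : ℝ) (l : List ℕ) : Measurable fun c : ℝ => vl α c l := by
  unfold vl
  induction l with
  | nil => simp
  | cons a l ih =>
    simp only [List.map_cons, List.sum_cons]
    refine Measurable.add ?_ ih
    have h : Measurable fun c : ℝ => α * (a : ℝ) ^ c := by
      rcases Nat.eq_zero_or_pos a with h0 | h0
      · subst h0
        simp only [Nat.cast_zero]
        exact (measurable_const.pow measurable_id).const_mul α
      · exact (measurable_const.pow measurable_id).const_mul α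
    exact Int.measurable_floor.comp h

lemma Jc_measurable' (α : ℝ) (A : Finset (List ℕ × List ℕ)) :
    Measurable fun c : ℝ => (Jc A (va α c) : ℝ≥0∞) := by
  simp only [Jc_eq]
  refine Finset.measurable_sum _ fun p _ => ?_
  have h : ∀ t : List ℕ × List ℕ, Measurable fun c : ℝ => va α c t := fun t =>
    (vl_measurable α t.1).add (vl_measurable α t.2)
  exact Measurable.ite (measurableSet_eq_fun (h _) (h _)) measurable_const measurable_const

/-- few coincidences for almost all exponents in an interval -/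
theorem bc (hM : S_MV) {β γ c1 c2 : ℝ} {r : ℕ} (hβ : 0 < β) (hβγ : β < γ) (hγ : γ < 1)
    (hc1 : 1 < c1) (hc : c1 ≤ c2) (hβ1 : β < 1 - 1 / c1)
    (hS : c2 ≤ (1 + γ) * ∑ j ∈ range r, β ^ j)
    {ε : ℝ} (hε : 0 < ε) (hεd : r * (c2 - 1 - β * c1) + c2 - γ * c1 ≤ ε) :
    ∀ᵐ c ∂((volume : Measure ℝ).restrict (Set.Icc c1 c2)),
      ∀ᶠ m : ℕ in atTop, ∀ j ≤ m,
        (Jc (AA ((2 ^ m : ℕ) : ℝ) β γ r) (va ((2 : ℝ) ^ j) c) : ℝ) ≤
          ((AA ((2 ^ m : ℕ) : ℝ) β γ r).card : ℝ) ^ 2 * ((2 : ℝ) ^ m) ^ (-c2 + 2 * ε) := by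
  obtain ⟨K, hK, h⟩ := hM β γ c1 c2 r hβ hβγ hγ hc1 hc hβ1
  set ρ := (volume : Measure ℝ).restrict (Set.Icc c1 c2) with hρ
  have hpow : Tendsto (fun m : ℕ => 2 ^ m) atTop (atTop : Filter ℕ) :=
    tendsto_pow_atTop_atTop_of_one_lt (by norm_num)
  set s : ℕ → Set ℝ := fun m => ⋃ j ∈ Finset.range (m + 1),
    {c | ENNReal.ofReal (((AA ((2 ^ m : ℕ) : ℝ) β γ r).card : ℝ) ^ 2 * ((2 : ℝ) ^ m) ^ (-c2 + 2 * ε)) ≤
      (Jc (AA ((2 ^ m : ℕ) : ℝ) β γ r) (va ((2 : ℝ) ^ j) c) : ℝ≥0∞)} with hs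
  obtain ⟨m₀, hm₀⟩ := eventually_atTop.1 (hpow.eventually h)
  have h1 : ∀ m : ℕ, m₀ ≤ m → ρ (s m) ≤
      ENNReal.ofReal (K * (4 ^ r + 1) * (((m : ℝ) + 1) ^ 2 * ((2 : ℝ) ^ m) ^ (-ε))) := by
    intro m hm
    have hmv := hm₀ m hm
    obtain ⟨p, hp⟩ : ∃ p : ℝ, p = (2 : ℝ) ^ m := ⟨_, rfl⟩
    have hpP : ((2 ^ m : ℕ) : ℝ) = p := by rw [hp]; push_cast; rfl
    rw [hpP] at hmv
    simp only [hpP, ← hp, hs]
    have hp1 : 1 ≤ p := by rw [hp]; exact one_le_pow₀ (by norm_num)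
    have hp0 : 0 < p := by linarith
    obtain ⟨a, ha⟩ : ∃ a : ℝ, a = ((AA p β γ r).card : ℝ) := ⟨_, rfl⟩
    rw [← AA_card, ← ha] at hmv
    rw [← ha]
    have hage : (1 / 4) ^ r * p ^ c2 ≤ a := by
      rw [ha, AA_card]
      have g1 := blk_card_ge hp1 hβ.le r 1 zero_le_one
      have g2 := blk_card_ge hp1 hβ.le r γ (by linarith)
      calc (1 / 4) ^ r * p ^ c2 ≤ (1 / 4) ^ r * p ^ ((1 + γ) * ∑ j ∈ range r, β ^ j) := by
            have := Real.rpow_le_rpow_of_exponent_le hp1 hS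
            gcongr
        _ = ((1 / 2) ^ r * p ^ (1 * ∑ j ∈ range r, β ^ j)) *
            ((1 / 2) ^ r * p ^ (γ * ∑ j ∈ range r, β ^ j)) := by
            rw [add_mul, Real.rpow_add hp0]
            have : ((1 : ℝ) / 4) ^ r = (1 / 2) ^ r * (1 / 2) ^ r := by
              rw [← mul_pow]; norm_num
            rw [this]
            ring
        _ ≤ _ := by
            have := Real.rpow_pos_of_pos hp0 (γ * ∑ j ∈ range r, β ^ j)
            gcongr
    have ha0 : 0 < a := lt_of_lt_of_le (by positivity) hage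
    have hεp : 1 ≤ p ^ ε := Real.one_le_rpow hp1 hε.le
    have hint : K * (1 + Real.log p) * (a + a ^ 2 * p ^ (r * (c2 - 1 - β * c1) - γ * c1)) ≤
        K * (4 ^ r + 1) * ((m : ℝ) + 1) * (a ^ 2 * p ^ (-c2 + ε)) := by
      have hlog : Real.log p ≤ m := by
        rw [hp, Real.log_pow]
        have := Real.log_two_lt_d9
        have h6 : (0 : ℝ) ≤ m := Nat.cast_nonneg m
        nlinarith
      have hlog0 : 0 ≤ Real.log p := Real.log_nonneg hp1
      have e1 : a ≤ 4 ^ r * (a ^ 2 * p ^ (-c2 + ε)) := by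
        have e2 : 1 ≤ 4 ^ r * (a * p ^ (-c2)) := by
          calc (1 : ℝ) = 4 ^ r * (((1 / 4) ^ r * p ^ c2) * p ^ (-c2)) := by
                rw [mul_assoc, ← Real.rpow_add hp0, add_neg_cancel, Real.rpow_zero, mul_one,
                  ← mul_pow]
                norm_num
            _ ≤ 4 ^ r * (a * p ^ (-c2)) := by
                have := Real.rpow_pos_of_pos hp0 (-c2)
                gcongr
        calc a = a * 1 * 1 := by ring
          _ ≤ a * (4 ^ r * (a * p ^ (-c2))) * p ^ ε := by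
              have := Real.rpow_pos_of_pos hp0 (-c2)
              gcongr
          _ = 4 ^ r * (a ^ 2 * p ^ (-c2 + ε)) := by
              rw [Real.rpow_add hp0]; ring
      have e3 : a ^ 2 * p ^ (r * (c2 - 1 - β * c1) - γ * c1) ≤ a ^ 2 * p ^ (-c2 + ε) := by
        have := Real.rpow_le_rpow_of_exponent_le hp1
          (show r * (c2 - 1 - β * c1) - γ * c1 ≤ -c2 + ε by linarith)
        gcongr
      calc K * (1 + Real.log p) * (a + a ^ 2 * p ^ (r * (c2 - 1 - β * c1) - γ * c1)) ≤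
            K * ((m : ℝ) + 1) * (4 ^ r * (a ^ 2 * p ^ (-c2 + ε)) + a ^ 2 * p ^ (-c2 + ε)) := by
              have e4 : 1 + Real.log p ≤ (m : ℝ) + 1 := by linarith
              have e5 : K * (1 + Real.log p) ≤ K * ((m : ℝ) + 1) := mul_le_mul_of_nonneg_left e4 hK.le
              exact mul_le_mul e5 (add_le_add e1 e3) (by positivity) (by positivity)
        _ = _ := by ring
    have h2 : ∀ j ∈ Finset.range (m + 1), ρ {c | ENNReal.ofReal (a ^ 2 * p ^ (-c2 + 2 * ε)) ≤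
        (Jc (AA p β γ r) (va ((2 : ℝ) ^ j) c) : ℝ≥0∞)} ≤
        ENNReal.ofReal (K * (4 ^ r + 1) * ((m : ℝ) + 1) * p ^ (-ε)) := by
      intro j _
      have h3 := meas_ge_le_lintegral_div (μ := ρ) (Jc_measurable' ((2 : ℝ) ^ j) (AA p β γ r)).aemeasurable
        (ε := ENNReal.ofReal (a ^ 2 * p ^ (-c2 + 2 * ε)))
        (by
          rw [Ne, ENNReal.ofReal_eq_zero, not_le]
          have := Real.rpow_pos_of_pos hp0 (-c2 + 2 * ε)
          positivity) ENNReal.ofReal_ne_top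
      refine h3.trans (ENNReal.div_le_of_le_mul ?_)
      have h4 := hmv ((2 : ℝ) ^ j) (one_le_pow₀ (by norm_num))
      refine (le_trans h4 (ENNReal.ofReal_le_ofReal hint)).trans ?_
      rw [← ENNReal.ofReal_mul (by
        have := Real.rpow_pos_of_pos hp0 (-ε)
        positivity)]
      refine ENNReal.ofReal_le_ofReal (le_of_eq ?_)
      have h7 : p ^ (-ε) * p ^ (-c2 + 2 * ε) = p ^ (-c2 + ε) := by
        rw [← Real.rpow_add hp0]
        congr 1
        ring
      rw [← h7]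
      ring
    calc ρ (⋃ j ∈ Finset.range (m + 1), {c | ENNReal.ofReal (a ^ 2 * p ^ (-c2 + 2 * ε)) ≤
        (Jc (AA p β γ r) (va ((2 : ℝ) ^ j) c) : ℝ≥0∞)}) ≤
        ∑ j ∈ Finset.range (m + 1), ρ {c | ENNReal.ofReal (a ^ 2 * p ^ (-c2 + 2 * ε)) ≤
        (Jc (AA p β γ r) (va ((2 : ℝ) ^ j) c) : ℝ≥0∞)} := measure_biUnion_finset_le _ _
      _ ≤ ∑ _j ∈ Finset.range (m + 1), ENNReal.ofReal (K * (4 ^ r + 1) * ((m : ℝ) + 1) * p ^ (-ε)) :=
          Finset.sum_le_sum h2
      _ = ENNReal.ofReal (K * (4 ^ r + 1) * (((m : ℝ) + 1) ^ 2 * p ^ (-ε))) := by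
          rw [Finset.sum_const, card_range, nsmul_eq_mul, ← ENNReal.ofReal_natCast,
            ← ENNReal.ofReal_mul (by positivity)]
          congr 1
          push_cast
          ring
  have h8 : ∑' i, ρ (s (i + m₀)) ≠ ∞ := by
    have h9 : Summable fun i : ℕ => K * (4 ^ r + 1) *
        ((((i + m₀ : ℕ) : ℝ) + 1) ^ 2 * ((2 : ℝ) ^ (i + m₀)) ^ (-ε)) :=
      ((summable_nat_add_iff m₀).2 (summ hε)).mul_left _
    refine ne_top_of_le_ne_top h9.tsum_ofReal_ne_top ?_
    exact ENNReal.tsum_le_tsum fun i => h1 (i + m₀) (by omega)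
  have h10 := ae_eventually_notMem h8
  filter_upwards [h10] with μ hμ
  rw [eventually_atTop] at hμ ⊢
  obtain ⟨i₀, hi₀⟩ := hμ
  refine ⟨i₀ + m₀, fun m hm j hj => ?_⟩
  have h11 := hi₀ (m - m₀) (by omega)
  rw [Nat.sub_add_cancel (by omega)] at h11
  simp only [hs, Set.mem_iUnion, Set.mem_ofPred_eq, not_exists, not_le] at h11
  have h12 := h11 j (by simp; omega)
  rw [← ENNReal.ofReal_natCast] at h12
  exact (ENNReal.ofReal_lt_ofReal_iff_of_nonneg (Nat.cast_nonneg _)).1 h12 |>.le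

end Pool.Agent.Y935.RE
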