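import Mathlib
import Pool.Agent.Y935.RE.Stm
import Pool.Agent.Y935.WR.Sup

/-!
# The generating function of the last variable times one minus the Fejer kernel, real exponents
-/

set_option autoImplicit false

namespace Pool.Agent.Y935.RE

open Finset Filter
open Pool.Agent.Helper602.MK (ee)
open Pool.Agent.Helper602.MK.N_J5b (ee_add ee_zero norm_ee ee_int ee_add_int)
open Pool.Agent.Y935.WR (Wt Vt Jc four Vt_nonneg Vt_le_one Vt_le)

/-- the bounds for the last variable, uniform in the scaling factor -/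
theorem supc (hmin : S_MIN) (k : ℕ) (hk : 1 ≤ k) :
    ∃ κ σ : ℝ, 0 < κ ∧ κ < 1 ∧ 0 < σ ∧ ∀ (c : ℝ) (T : ℕ), (k : ℝ) < c → c < k + 1 → 2 ≤ T →
      ∀ᶠ P : ℕ in atTop, ∀ α : ℝ, 1 ≤ α → α ≤ (P : ℝ) ^ σ →
      (∀ x₀ N : ℕ, P ≤ x₀ → x₀ + N ≤ T * P →
        ‖∑ n ∈ range N, ee (α * ((x₀ : ℝ) + n) ^ c)‖ ≤ (P : ℝ) ^ (1 - κ - σ)) ∧
      (∀ M : ℕ, 1 ≤ M → (M : ℝ) ≤ 2 * α * (P : ℝ) ^ (c - κ) → ∀ θ : ℝ, |θ| ≤ 1 / 2 →
        ‖∑ z ∈ Ioc P (T * P), ((Real.sin (Real.pi * (α * (z : ℝ) ^ c)) ^ 2 : ℝ) : ℂ) *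
          ee (θ * (⌊α * (z : ℝ) ^ c⌋ : ℝ))‖ * Vt M θ ≤ (P : ℝ) ^ (1 - σ)) := by
  obtain ⟨C0, hC0, hfour⟩ := four
  obtain ⟨σ₁, hσ₁, hmin1⟩ := hmin k (1 / 2) hk (by norm_num)
  obtain ⟨κ, hκdef⟩ : ∃ κ, κ = min (σ₁ / 2) (1 / 2) := ⟨_, rfl⟩
  have hκ0 : 0 < κ := by rw [hκdef]; exact lt_min (by positivity) (by norm_num)
  have hκ1 : κ ≤ σ₁ / 2 := by rw [hκdef]; exact min_le_left _ _
  have hκ2 : κ ≤ 1 / 2 := by rw [hκdef]; exact min_le_right _ _
  obtain ⟨σ₂, hσ₂, hmin2⟩ := hmin k (κ / 2) hk (by positivity)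
  obtain ⟨σ, hσdef⟩ : ∃ σ, σ = min (min (σ₁ / 4) (σ₂ / 8)) (κ / 4) := ⟨_, rfl⟩
  have hσ0 : 0 < σ := by
    rw [hσdef]; exact lt_min (lt_min (by positivity) (by positivity)) (by positivity)
  have hσa : σ ≤ σ₁ / 4 := by rw [hσdef]; exact (min_le_left _ _).trans (min_le_left _ _)
  have hσb : σ ≤ σ₂ / 8 := by rw [hσdef]; exact (min_le_left _ _).trans (min_le_right _ _)
  have hσc : σ ≤ κ / 4 := by rw [hσdef]; exact min_le_right _ _
  refine ⟨κ, σ, hκ0, by linarith, hσ0, fun c T hc1 hc2 hT => ?_⟩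
  have hT0 : (0 : ℝ) < T := by exact_mod_cast (by omega : 0 < T)
  have hT1 : (1 : ℝ) ≤ T := by exact_mod_cast (by omega : 1 ≤ T)
  have hk0 : (1 : ℝ) ≤ k := by exact_mod_cast hk
  have hpi := Real.pi_pos
  have tP : Tendsto (fun P : ℕ => (P : ℝ)) atTop atTop := tendsto_natCast_atTop_atTop
  have ge : ∀ (e c : ℝ), 0 < e → ∀ᶠ P : ℕ in atTop, c ≤ (P : ℝ) ^ e := fun e c he =>
    ((tendsto_rpow_atTop he).comp tP).eventually_ge_atTop c
  filter_upwards [hmin1 c T hc1 hc2 hT, hmin2 c (2 * T) hc1 hc2 (by omega),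
    ge (σ₂ / 8) (3 * T * C0) (by positivity),
    ge (κ / 4) (8 * Real.pi * T) (by positivity), ge (σ₂ / 2) 3 (by positivity),
    eventually_ge_atTop 4] with P E1 E2 E4 E5 E6 hP1
  intro α hα1 hα2
  set p : ℝ := (P : ℝ) with hp
  have hp4 : (4 : ℝ) ≤ p := by rw [hp]; exact_mod_cast hP1
  have hp1 : (1 : ℝ) ≤ p := by linarith
  have hp0 : 0 < p := by linarith
  have hα0 : 0 < α := by linarith
  have rp : ∀ x : ℝ, 0 < p ^ x := fun x => Real.rpow_pos_of_pos hp0 x
  have rmono : ∀ {x y : ℝ}, x ≤ y → p ^ x ≤ p ^ y := fun h =>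
    Real.rpow_le_rpow_of_exponent_le hp1 h
  constructor
  · intro x₀ N hx0 hxN
    have h2 : p ^ ((1 / 2 : ℝ) - c) ≤ |α| := by
      rw [abs_of_pos hα0]
      refine le_trans ?_ hα1
      apply Real.rpow_le_one_of_one_le_of_nonpos hp1
      linarith
    have h3 : |α| ≤ p ^ σ₁ := by
      rw [abs_of_pos hα0]
      exact hα2.trans (rmono (by linarith))
    refine (E1 α h2 h3 x₀ N hx0 hxN).trans (rmono (by linarith))
  · intro M hM1 hM θ hθ
    have hM0 : (0 : ℝ) < M := by exact_mod_cast hM1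
    have hV0 := Vt_nonneg M hM1 θ
    have hV1 := Vt_le_one M θ
    set u : ℕ → ℝ := fun z => α * (z : ℝ) ^ c with hu
    have hcard : ((Ioc P (T * P)).card : ℝ) ≤ T * p := by
      rw [Nat.card_Ioc, hp, ← Nat.cast_mul]
      exact_mod_cast Nat.sub_le _ _
    by_cases hmaj : |θ| * α < p ^ (κ / 2 - c)
    · -- major arc
      have h1 : ‖∑ z ∈ Ioc P (T * P), ((Real.sin (Real.pi * u z) ^ 2 : ℝ) : ℂ) *
          ee (θ * (⌊u z⌋ : ℝ))‖ ≤ T * p := by
        refine (norm_sum_le _ _).trans ?_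
        refine le_trans (sum_le_sum (g := fun _ => (1 : ℝ)) fun z _ => ?_) ?_
        · rw [norm_mul, norm_ee, mul_one, Complex.norm_real, Real.norm_eq_abs,
            abs_of_nonneg (sq_nonneg _)]
          exact Real.sin_sq_le_one _
        · simpa using hcard
      have h2 : Vt M θ ≤ 8 * Real.pi * p ^ (-(κ / 2)) := by
        refine (Vt_le M hM1 θ).trans ?_
        have h3 : (M : ℝ) * |θ| ≤ 2 * p ^ (-(κ / 2)) := by
          calc (M : ℝ) * |θ| ≤ (2 * α * p ^ (c - κ)) * |θ| := by gcongr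
            _ = 2 * p ^ (c - κ) * (|θ| * α) := by ring
            _ ≤ 2 * p ^ (c - κ) * p ^ (κ / 2 - c) := by
              have := rp (c - κ)
              gcongr
            _ = 2 * p ^ (-(κ / 2)) := by
              rw [mul_assoc, ← Real.rpow_add hp0]; congr 2; ring
        calc 4 * Real.pi * M * |θ| = 4 * Real.pi * (M * |θ|) := by ring
          _ ≤ 4 * Real.pi * (2 * p ^ (-(κ / 2))) := by gcongr
          _ = _ := by ring
      calc ‖∑ z ∈ Ioc P (T * P), ((Real.sin (Real.pi * u z) ^ 2 : ℝ) : ℂ) *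
          ee (θ * (⌊u z⌋ : ℝ))‖ * Vt M θ ≤ (T * p) * (8 * Real.pi * p ^ (-(κ / 2))) :=
            mul_le_mul h1 h2 hV0 (by positivity)
        _ = (8 * Real.pi * T) * (p ^ (1 : ℝ) * p ^ (-(κ / 2))) := by rw [Real.rpow_one]; ring
        _ ≤ p ^ (κ / 4) * (p ^ (1 : ℝ) * p ^ (-(κ / 2))) := by
          have := rp 1
          have := rp (-(κ / 2))
          gcongr
        _ = p ^ (κ / 4 + (1 + -(κ / 2))) := by rw [← Real.rpow_add hp0, ← Real.rpow_add hp0]
        _ ≤ p ^ (1 - σ) := rmono (by linarith)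
    · -- minor arc
      push Not at hmaj
      set H : ℕ := ⌈p ^ (σ₂ / 4)⌉₊ with hH
      have hHge : p ^ (σ₂ / 4) ≤ H := Nat.le_ceil _
      have hp4' : 1 ≤ p ^ (σ₂ / 4) := Real.one_le_rpow hp1 (by positivity)
      have hH1 : 1 ≤ H := by
        have : (1 : ℝ) ≤ H := hp4'.trans hHge
        exact_mod_cast this
      have hH0 : (0 : ℝ) < H := by exact_mod_cast hH1
      have hHle : (H : ℝ) ≤ 2 * p ^ (σ₂ / 4) := by
        have := Nat.ceil_lt_add_one (rp (σ₂ / 4)).le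
        rw [← hH] at this
        linarith
      have hsup : ∀ h : ℤ, |h| ≤ H → ‖∑ z ∈ Ioc P (T * P), ee ((θ + h) * u z)‖ ≤ p ^ (1 - σ₂) := by
        intro h hh
        have hh' : |(h : ℝ)| ≤ H := by rw [← Int.cast_abs]; exact_mod_cast hh
        have e1 : ∑ z ∈ Ioc P (T * P), ee ((θ + h) * u z) =
            ∑ n ∈ range (T * P - P), ee ((θ + h) * α * (((P + 1 : ℕ) : ℝ) + n) ^ c) := by
          have : Ioc P (T * P) = Ico (P + 1) (T * P + 1) := by
            ext z; simp only [mem_Ioc, mem_Ico]; omega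
          rw [this, sum_Ico_eq_sum_range]
          have h2 : T * P + 1 - (P + 1) = T * P - P := by omega
          rw [h2]
          refine sum_congr rfl fun n _ => ?_
          simp only [hu]
          push_cast
          congr 1; ring
        rw [e1]
        apply E2
        · rw [abs_mul, abs_of_pos hα0]
          rcases eq_or_ne h 0 with h0 | h0
          · rw [h0]; simpa using hmaj
          · have h5 : (1 : ℝ) ≤ |(h : ℝ)| := by
              rw [← Int.cast_abs]; exact_mod_cast Int.one_le_abs h0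
            have h6 : 1 / 2 ≤ |θ + h| := by
              have := abs_sub_abs_le_abs_sub (h : ℝ) (-θ)
              rw [abs_neg, sub_neg_eq_add, add_comm (h : ℝ) θ] at this
              linarith
            have h7 : p ^ (κ / 2 - c) ≤ 1 / 2 := by
              have h8 : (2 : ℝ) ≤ p ^ (1 / 2 : ℝ) := by
                calc (2 : ℝ) = (4 : ℝ) ^ (1 / 2 : ℝ) := by
                      rw [show (4 : ℝ) = 2 ^ (2 : ℝ) by norm_num, ← Real.rpow_mul (by norm_num)]
                      norm_num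
                  _ ≤ p ^ (1 / 2 : ℝ) := Real.rpow_le_rpow (by norm_num) hp4 (by norm_num)
              calc p ^ (κ / 2 - c) ≤ p ^ (-(1 / 2) : ℝ) := rmono (by linarith)
                _ = (p ^ (1 / 2 : ℝ))⁻¹ := Real.rpow_neg hp0.le _
                _ ≤ 1 / 2 := by rw [one_div]; exact inv_anti₀ (by norm_num) (by simpa using h8)
            calc p ^ (κ / 2 - c) ≤ 1 / 2 := h7
              _ ≤ |θ + h| * 1 := by linarith
              _ ≤ |θ + h| * α := by gcongr
        · rw [abs_mul, abs_of_pos hα0]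
          have h8 : |θ + h| ≤ 3 * p ^ (σ₂ / 4) := by
            have := abs_add_le θ (h : ℝ)
            linarith
          calc |θ + h| * α ≤ (3 * p ^ (σ₂ / 4)) * p ^ σ := by gcongr
            _ ≤ (p ^ (σ₂ / 2) * p ^ (σ₂ / 4)) * p ^ σ := by
              have := rp (σ₂ / 4)
              have := rp σ
              gcongr
            _ = p ^ (σ₂ / 2 + σ₂ / 4 + σ) := by rw [Real.rpow_add hp0, Real.rpow_add hp0]
            _ ≤ p ^ σ₂ := rmono (by linarith)
        · omega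
        · have h3 : P + 1 + (T * P - P) = T * P + 1 := by
            have : P ≤ T * P := Nat.le_mul_of_pos_left P (by omega)
            omega
          rw [h3]
          have h4 : 1 ≤ T * P := Nat.one_le_iff_ne_zero.2 (Nat.mul_ne_zero (by omega) (by omega))
          calc T * P + 1 ≤ T * P + T * P := by omega
            _ = 2 * T * P := by ring
      have h9 := hfour θ hθ ℕ (Ioc P (T * P)) u H (p ^ (1 - σ₂)) hH1 (rp _).le hsup
      have h12 : ((Ioc P (T * P)).card : ℝ) / H ≤ T * p ^ (1 - σ₂ / 4) := by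
        rw [div_le_iff₀ hH0]
        calc ((Ioc P (T * P)).card : ℝ) ≤ T * p := hcard
          _ = T * p ^ (1 - σ₂ / 4) * p ^ (σ₂ / 4) := by
            rw [mul_assoc, ← Real.rpow_add hp0]; norm_num
          _ ≤ T * p ^ (1 - σ₂ / 4) * H := by
            have := rp (1 - σ₂ / 4)
            gcongr
      calc ‖∑ z ∈ Ioc P (T * P), ((Real.sin (Real.pi * u z) ^ 2 : ℝ) : ℂ) *
          ee (θ * (⌊u z⌋ : ℝ))‖ * Vt M θ ≤
            (C0 * (p ^ (1 - σ₂) + (Ioc P (T * P)).card / H)) * 1 :=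
            mul_le_mul h9 hV1 hV0 (mul_nonneg hC0.le (add_nonneg (rp _).le (by positivity)))
        _ ≤ (C0 * (2 * T * p ^ (1 - σ₂ / 4) + T * p ^ (1 - σ₂ / 4))) * 1 := by
          have h13 : p ^ (1 - σ₂) ≤ 2 * T * p ^ (1 - σ₂ / 4) := by
            have h14 : p ^ (1 - σ₂) ≤ p ^ (1 - σ₂ / 4) := rmono (by linarith)
            have h15 : 1 * p ^ (1 - σ₂ / 4) ≤ 2 * T * p ^ (1 - σ₂ / 4) :=
              mul_le_mul_of_nonneg_right (by linarith) (rp _).le
            linarith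
          gcongr
        _ = (3 * T * C0) * p ^ (1 - σ₂ / 4) := by ring
        _ ≤ p ^ (σ₂ / 8) * p ^ (1 - σ₂ / 4) := by
          have := rp (1 - σ₂ / 4)
          gcongr
        _ = p ^ (σ₂ / 8 + (1 - σ₂ / 4)) := (Real.rpow_add hp0 _ _).symm
        _ ≤ p ^ (1 - σ) := rmono (by linarith)

end Pool.Agent.Y935.RE
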