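import Mathlib
import Pool.Agent.Y935.RE.BC
import Pool.Agent.Y935.RE.Sup

/-!
# Assembly: existence of solutions
-/

set_option autoImplicit false

namespace Pool.Agent.Y935.RE

open Finset MeasureTheory Filter
open Pool.Agent.Helper602.MK (ee)
open Pool.Agent.Y935.WR (Jc Wt Vt S_CIRC)

/-- few coincidences -/
def GoodE (β γ : ℝ) (r : ℕ) (c ε : ℝ) : Prop := ∀ᶠ m : ℕ in atTop, ∀ j ≤ m,
  (Jc (AA ((2 ^ m : ℕ) : ℝ) β γ r) (va ((2 : ℝ) ^ j) c) : ℝ) ≤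
    ((AA ((2 ^ m : ℕ) : ℝ) β γ r).card : ℝ) ^ 2 * ((2 : ℝ) ^ m) ^ (-c + ε)

lemma mem_blk {p β : ℝ} (hp : 1 ≤ p) (hβ : 0 ≤ β) (hβ1 : β ≤ 1) (r : ℕ) :
    ∀ lam : ℝ, 0 ≤ lam → lam ≤ 1 →
    ∀ l ∈ blk p β r lam, l.length = r ∧ ∀ a ∈ l, 1 ≤ a ∧ (a : ℝ) ≤ 2 * p := by
  induction r with
  | zero =>
    intro lam _ _ l hl
    simp only [blk, mem_singleton] at hl
    subst hl
    simp
  | succ r ih =>
    intro lam h0 h1 l hl
    rw [blk_succ, mem_image] at hl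
    obtain ⟨⟨a, l'⟩, h2, rfl⟩ := hl
    rw [mem_product] at h2
    obtain ⟨h3, h4⟩ := h2
    obtain ⟨h5, h6⟩ := ih (β * lam) (by positivity) (by nlinarith) l' h4
    refine ⟨by simp [h5], ?_⟩
    intro b hb
    rcases List.mem_cons.1 hb with h | h
    · subst h
      rw [mem_Ioc] at h3
      refine ⟨by omega, ?_⟩
      have h7 : p ^ lam ≤ p := by
        calc p ^ lam ≤ p ^ (1 : ℝ) := Real.rpow_le_rpow_of_exponent_le hp h1
          _ = p := Real.rpow_one p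
      have h8 : (⌊p ^ lam⌋₊ : ℝ) ≤ p ^ lam := Nat.floor_le (by positivity)
      have h9 : (b : ℝ) ≤ 2 * (⌊p ^ lam⌋₊ : ℝ) := by exact_mod_cast h3.2
      linarith
    · exact h6 b h

lemma vl_bounds {α c p : ℝ} (hα : 0 ≤ α) (hc : 0 ≤ c) (hp : 0 ≤ p) (l : List ℕ)
    (h : ∀ a ∈ l, (a : ℝ) ≤ 2 * p) :
    (0 : ℝ) ≤ vl α c l ∧ (vl α c l : ℝ) ≤ l.length * (2 ^ c * (α * p ^ c)) := by
  induction l with
  | nil => simp [vl]
  | cons a l ih =>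
    have h1 := ih (fun b hb => h b (List.mem_cons_of_mem a hb))
    have h2 : vl α c (a :: l) = ⌊α * (a : ℝ) ^ c⌋ + vl α c l := by simp [vl]
    have h3 : (0 : ℝ) ≤ (⌊α * (a : ℝ) ^ c⌋ : ℤ) := by
      have : (0 : ℝ) ≤ α * (a : ℝ) ^ c := by positivity
      exact_mod_cast Int.floor_nonneg.2 this
    have h4 : ((⌊α * (a : ℝ) ^ c⌋ : ℤ) : ℝ) ≤ 2 ^ c * (α * p ^ c) := by
      refine (Int.floor_le _).trans ?_
      have h5 : (a : ℝ) ≤ 2 * p := h a (by simp)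
      calc α * (a : ℝ) ^ c ≤ α * (2 * p) ^ c := by gcongr
        _ = 2 ^ c * (α * p ^ c) := by
            rw [Real.mul_rpow (by norm_num) hp]; ring
    rw [h2]
    push_cast
    rw [List.length_cons]
    push_cast
    constructor
    · linarith [h1.1]
    · have := h1.2
      nlinarith

lemma va_bounds {α c p β γ : ℝ} (hα : 0 ≤ α) (hc : 0 ≤ c) (hp : 1 ≤ p) (hβ : 0 ≤ β) (hβ1 : β ≤ 1)
    (hγ : 0 ≤ γ) (hγ1 : γ ≤ 1) {r : ℕ} {t : List ℕ × List ℕ} (ht : t ∈ AA p β γ r) :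
    (0 : ℝ) ≤ va α c t ∧ (va α c t : ℝ) ≤ 2 * r * 2 ^ c * (α * p ^ c) := by
  unfold AA at ht
  rw [mem_product] at ht
  obtain ⟨h1, h2⟩ := mem_blk hp hβ hβ1 r 1 zero_le_one le_rfl t.1 ht.1
  obtain ⟨h3, h4⟩ := mem_blk hp hβ hβ1 r γ hγ hγ1 t.2 ht.2
  have h5 := vl_bounds hα hc (by linarith : 0 ≤ p) t.1 (fun a ha => (h2 a ha).2)
  have h6 := vl_bounds hα hc (by linarith : 0 ≤ p) t.2 (fun a ha => (h4 a ha).2)
  rw [h1] at h5
  rw [h3] at h6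
  unfold va
  push_cast
  constructor
  · linarith [h5.1, h6.1]
  · linarith [h5.2, h6.2]

lemma AA_pos {p β γ : ℝ} (hp : 1 ≤ p) (hβ : 0 ≤ β) (hγ : 0 ≤ γ) (r : ℕ) :
    (0 : ℝ) < (AA p β γ r).card := by
  rw [AA_card]
  have h1 := blk_card_ge hp hβ r 1 zero_le_one
  have h2 := blk_card_ge hp hβ r γ hγ
  have hp0 : 0 < p := by linarith
  have h3 : 0 < (1 / 2) ^ r * p ^ (1 * ∑ j ∈ range r, β ^ j) := by positivity
  have h4 : 0 < (1 / 2) ^ r * p ^ (γ * ∑ j ∈ range r, β ^ j) := by positivity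
  exact mul_pos (by linarith) (by linarith)

/-- the circle method -/
theorem count (hC : S_CIRC) (hL : S_LOW) (hmin : S_MIN) (k : ℕ) (hk : 1 ≤ k) :
    ∃ σ' : ℝ, 0 < σ' ∧ σ' ≤ 1 ∧ ∀ (c β γ : ℝ) (r : ℕ), (k : ℝ) < c → c < k + 1 → 0 ≤ β → β ≤ 1 →
      0 ≤ γ → γ ≤ 1 → GoodE β γ r c σ' → ∀ T : ℕ, 2 ≤ T → ∀ᶠ m : ℕ in atTop,
      ∀ j : ℕ, (2 : ℝ) ^ j ≤ ((2 : ℝ) ^ m) ^ σ' → ∀ n : ℤ,
        (4 * r * 2 ^ c + 2) * ((2 : ℝ) ^ j * ((2 : ℝ) ^ m) ^ c) ≤ n →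
        (n : ℝ) ≤ (2 : ℝ) ^ j * (T * (2 : ℝ) ^ m) ^ c / 2 →
        ∃ x ∈ AA ((2 ^ m : ℕ) : ℝ) β γ r, ∃ y ∈ AA ((2 ^ m : ℕ) : ℝ) β γ r,
          ∃ z ∈ Ioc (2 ^ m) (T * 2 ^ m),
          va ((2 : ℝ) ^ j) c x + va ((2 : ℝ) ^ j) c y + ⌊(2 : ℝ) ^ j * (z : ℝ) ^ c⌋ = n := by
  obtain ⟨κ, σ, hκ, hκ1, hσ, hsup⟩ := supc hmin k hk
  refine ⟨min (σ / 4) 1, lt_min (by positivity) one_pos, min_le_right _ _, ?_⟩
  intro c β γ r hc1 hc2 hβ0 hβ1 hγ0 hγ1 hgood T hT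
  have hk1 : (1 : ℝ) ≤ k := by exact_mod_cast hk
  have hc : 1 < c := by linarith
  obtain ⟨c₁, hc₁, hlow⟩ := hL c κ T hc hκ hκ1 hT
  have hsup1 := hsup c T hc1 hc2 hT
  have hpow : Tendsto (fun m : ℕ => 2 ^ m) atTop (atTop : Filter ℕ) :=
    tendsto_pow_atTop_atTop_of_one_lt (by norm_num)
  have hpowR : Tendsto (fun m : ℕ => (2 : ℝ) ^ m) atTop atTop :=
    tendsto_pow_atTop_atTop_of_one_lt (by norm_num)
  have e1 : ∀ᶠ m : ℕ in atTop, (2 : ℝ) ≤ ((2 : ℝ) ^ m) ^ κ :=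
    ((tendsto_rpow_atTop hκ).comp hpowR).eventually_ge_atTop 2
  have e2 : ∀ᶠ m : ℕ in atTop, 2 / c₁ ≤ ((2 : ℝ) ^ m) ^ (σ / 2) :=
    ((tendsto_rpow_atTop (by positivity)).comp hpowR).eventually_ge_atTop _
  filter_upwards [hpow.eventually hlow, hpow.eventually hsup1, hgood, e1, e2]
    with m hlow1 hsup2 hJ e1 e2
  intro j hj n hn1 hn2
  obtain ⟨P, hP⟩ : ∃ P : ℕ, P = 2 ^ m := ⟨_, rfl⟩
  obtain ⟨α, hα⟩ : ∃ α : ℝ, α = (2 : ℝ) ^ j := ⟨_, rfl⟩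
  have hpP : (2 : ℝ) ^ m = (P : ℝ) := by rw [hP]; push_cast; rfl
  rw [← hP] at hlow1 hsup2 hJ
  rw [hpP] at hJ e1 e2 hj hn1 hn2
  rw [← hα] at hj hn1 hn2
  have hα1 : 1 ≤ α := by rw [hα]; exact one_le_pow₀ (by norm_num)
  have hα0 : 0 < α := by linarith
  have hp1 : (1 : ℝ) ≤ P := by
    rw [← hpP]; exact one_le_pow₀ (by norm_num)
  have hp0 : (0 : ℝ) < P := by linarith
  have hjm : j ≤ m := by
    have h1 : (2 : ℝ) ^ j ≤ (2 : ℝ) ^ m := by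
      rw [← hα, hpP]
      calc α ≤ (P : ℝ) ^ (min (σ / 4) 1) := hj
        _ ≤ (P : ℝ) ^ (1 : ℝ) := Real.rpow_le_rpow_of_exponent_le hp1 (min_le_right _ _)
        _ = P := Real.rpow_one _
    exact (pow_le_pow_iff_right₀ (by norm_num : (1 : ℝ) < 2)).1 h1
  have hασ : α ≤ (P : ℝ) ^ (σ / 4) :=
    hj.trans (Real.rpow_le_rpow_of_exponent_le hp1 (min_le_left _ _))
  have hασ' : α ≤ (P : ℝ) ^ σ :=
    hασ.trans (Real.rpow_le_rpow_of_exponent_le hp1 (by linarith))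
  obtain ⟨hs1, hs2⟩ := hsup2 α hα1 hασ'
  -- the window
  obtain ⟨M, hMdef⟩ : ∃ M : ℕ, M = ⌈α * (P : ℝ) ^ (c - κ)⌉₊ := ⟨_, rfl⟩
  have hM1 : α * (P : ℝ) ^ (c - κ) ≤ M := by rw [hMdef]; exact Nat.le_ceil _
  have hb1 : 1 ≤ (P : ℝ) ^ (c - κ) := Real.one_le_rpow hp1 (by linarith)
  have hb2 : 1 ≤ α * (P : ℝ) ^ (c - κ) := by
    calc (1 : ℝ) = 1 * 1 := by norm_num
      _ ≤ α * (P : ℝ) ^ (c - κ) := by gcongr
  have hM2 : (M : ℝ) ≤ 2 * α * (P : ℝ) ^ (c - κ) := by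
    have := Nat.ceil_lt_add_one (a := α * (P : ℝ) ^ (c - κ)) (by linarith)
    rw [← hMdef] at this
    linarith
  have hM3 : 1 ≤ M := by
    have : (1 : ℝ) ≤ M := by linarith
    exact_mod_cast this
  have hM4 : (M : ℝ) ≤ α * (P : ℝ) ^ c := by
    calc (M : ℝ) ≤ 2 * α * (P : ℝ) ^ (c - κ) := hM2
      _ ≤ (P : ℝ) ^ κ * α * (P : ℝ) ^ (c - κ) := by gcongr
      _ = α * ((P : ℝ) ^ κ * (P : ℝ) ^ (c - κ)) := by ring
      _ = α * (P : ℝ) ^ c := by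
          rw [← Real.rpow_add hp0, add_sub_cancel]
  -- the average
  have hcσ : (P : ℝ) ^ (-(σ / 2)) ≤ c₁ / 2 := by
    rw [Real.rpow_neg hp0.le]
    have h1 : (0 : ℝ) < 2 / c₁ := by positivity
    calc ((P : ℝ) ^ (σ / 2))⁻¹ ≤ (2 / c₁)⁻¹ := inv_anti₀ h1 e2
      _ = c₁ / 2 := by rw [inv_div]
  have hE : (P : ℝ) ^ (1 - κ - σ) ≤ c₁ * (M / (α * (P : ℝ) ^ (c - 1))) := by
    have h1 : (P : ℝ) ^ (1 - κ) ≤ M / (α * (P : ℝ) ^ (c - 1)) := by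
      rw [le_div_iff₀ (by positivity)]
      refine le_trans (le_of_eq ?_) hM1
      calc (P : ℝ) ^ (1 - κ) * (α * (P : ℝ) ^ (c - 1)) =
            α * ((P : ℝ) ^ (1 - κ) * (P : ℝ) ^ (c - 1)) := by ring
        _ = α * (P : ℝ) ^ (c - κ) := by
            rw [← Real.rpow_add hp0]
            congr 2
            ring
    calc (P : ℝ) ^ (1 - κ - σ) = (P : ℝ) ^ (-σ) * (P : ℝ) ^ (1 - κ) := by
          rw [← Real.rpow_add hp0]
          congr 1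
          ring
      _ ≤ c₁ * (M / (α * (P : ℝ) ^ (c - 1))) := by
          have h2 : (P : ℝ) ^ (-σ) ≤ c₁ := by
            calc (P : ℝ) ^ (-σ) ≤ (P : ℝ) ^ (-(σ / 2)) :=
                  Real.rpow_le_rpow_of_exponent_le hp1 (by linarith)
              _ ≤ c₁ / 2 := hcσ
              _ ≤ c₁ := by linarith
          exact mul_le_mul h2 h1 (by positivity) hc₁.le
  obtain ⟨A, hA⟩ : ∃ A : Finset (List ℕ × List ℕ), A = AA (P : ℝ) β γ r := ⟨_, rfl⟩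
  have hApos : (0 : ℝ) < A.card := by rw [hA]; exact AA_pos hp1 hβ0 hγ0 r
  rw [← hA] at hJ
  have havg : (A.card : ℝ) ^ 2 * (c₁ / (α * (P : ℝ) ^ (c - 1))) ≤ ∑ x ∈ A, ∑ y ∈ A,
      ∑ z ∈ Ioc P (T * P), Real.sin (Real.pi * (α * (z : ℝ) ^ c)) ^ 2 *
        Wt M (n - va α c x - va α c y - ⌊α * (z : ℝ) ^ c⌋) := by
    have h1 : ∀ x ∈ A, ∀ y ∈ A, c₁ / (α * (P : ℝ) ^ (c - 1)) ≤
        ∑ z ∈ Ioc P (T * P), Real.sin (Real.pi * (α * (z : ℝ) ^ c)) ^ 2 *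
        Wt M (n - va α c x - va α c y - ⌊α * (z : ℝ) ^ c⌋) := by
      intro x hx y hy
      rw [hA] at hx hy
      have hbx := va_bounds (c := c) hα0.le (by linarith) hp1 hβ0 hβ1 hγ0 hγ1 hx
      have hby := va_bounds (c := c) hα0.le (by linarith) hp1 hβ0 hβ1 hγ0 hγ1 hy
      refine hlow1 α M (n - va α c x - va α c y) _ hα1 hM1 hM4 ?_ ?_ hs1 hE
      · push_cast
        linarith [hbx.2, hby.2, hn1]
      · push_cast
        linarith [hbx.1, hby.1, hn2]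
    calc (A.card : ℝ) ^ 2 * (c₁ / (α * (P : ℝ) ^ (c - 1))) = ∑ _x ∈ A, ∑ _y ∈ A,
          c₁ / (α * (P : ℝ) ^ (c - 1)) := by
            rw [Finset.sum_const, Finset.sum_const, nsmul_eq_mul, nsmul_eq_mul]
            ring
      _ ≤ _ := Finset.sum_le_sum fun x hx => Finset.sum_le_sum fun y hy => h1 x hx y hy
  have hcirc := hC (List ℕ × List ℕ) (List ℕ × List ℕ) ℕ A A
    (Ioc P (T * P)) (va α c) (va α c) (fun z => ⌊α * (z : ℝ) ^ c⌋)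
    (fun z => Real.sin (Real.pi * (α * (z : ℝ) ^ c)) ^ 2) M ((P : ℝ) ^ (1 - σ)) n hM3
    (by positivity) (fun θ hθ => hs2 M hM3 hM2 θ hθ)
  have hJ2 : Real.sqrt ((Jc A (va α c) : ℝ) * Jc A (va α c)) ≤
      (A.card : ℝ) ^ 2 * (P : ℝ) ^ (-c + min (σ / 4) 1) := by
    rw [Real.sqrt_mul_self (Nat.cast_nonneg _)]
    have h1 := hJ j hjm
    rw [← hα] at h1
    exact h1
  have herr : (P : ℝ) ^ (1 - σ) * Real.sqrt ((Jc A (va α c) : ℝ) * Jc A (va α c)) ≤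
      (A.card : ℝ) ^ 2 * (c₁ / 2 / (α * (P : ℝ) ^ (c - 1))) := by
    calc (P : ℝ) ^ (1 - σ) * Real.sqrt ((Jc A (va α c) : ℝ) * Jc A (va α c)) ≤
          (P : ℝ) ^ (1 - σ) * ((A.card : ℝ) ^ 2 * (P : ℝ) ^ (-c + min (σ / 4) 1)) := by
            gcongr
      _ ≤ (P : ℝ) ^ (1 - σ) * ((A.card : ℝ) ^ 2 * (P : ℝ) ^ (-c + σ / 4)) := by
            have := Real.rpow_le_rpow_of_exponent_le hp1
              (show -c + min (σ / 4) 1 ≤ -c + σ / 4 by linarith [min_le_left (σ / 4) 1])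
            gcongr
      _ = (A.card : ℝ) ^ 2 * (P : ℝ) ^ (1 - c - 3 * σ / 4) := by
            have h1 : (P : ℝ) ^ (1 - c - 3 * σ / 4) = (P : ℝ) ^ (1 - σ) * (P : ℝ) ^ (-c + σ / 4) := by
              rw [← Real.rpow_add hp0]
              congr 1
              ring
            rw [h1]
            ring
      _ ≤ (A.card : ℝ) ^ 2 * (c₁ / 2 / (α * (P : ℝ) ^ (c - 1))) := by
            refine mul_le_mul_of_nonneg_left ?_ (by positivity)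
            rw [le_div_iff₀ (by positivity)]
            calc (P : ℝ) ^ (1 - c - 3 * σ / 4) * (α * (P : ℝ) ^ (c - 1)) ≤
                  (P : ℝ) ^ (1 - c - 3 * σ / 4) * ((P : ℝ) ^ (σ / 4) * (P : ℝ) ^ (c - 1)) := by
                    gcongr
              _ = (P : ℝ) ^ (-(σ / 2)) := by
                    rw [← Real.rpow_add hp0, ← Real.rpow_add hp0]
                    congr 1
                    ring
              _ ≤ c₁ / 2 := hcσ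
  by_contra hcon
  push Not at hcon
  have hzero : ∑ x ∈ A, ∑ y ∈ A, ∑ z ∈ Ioc P (T * P),
      Real.sin (Real.pi * (α * (z : ℝ) ^ c)) ^ 2 *
        (if va α c x + va α c y + ⌊α * (z : ℝ) ^ c⌋ = n then 1 else 0) = 0 := by
    refine Finset.sum_eq_zero fun x hx => Finset.sum_eq_zero fun y hy => Finset.sum_eq_zero fun z hz => ?_
    rw [hA] at hx hy
    rw [hP] at hx hy hz
    have := hcon x hx y hy z hz
    rw [← hα] at this
    rw [if_neg this, mul_zero]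
  have h3 := (abs_le.1 hcirc).1
  have h4 : 0 < (A.card : ℝ) ^ 2 * (c₁ / 2 / (α * (P : ℝ) ^ (c - 1))) := by positivity
  have h5 : (A.card : ℝ) ^ 2 * (c₁ / (α * (P : ℝ) ^ (c - 1))) =
      2 * ((A.card : ℝ) ^ 2 * (c₁ / 2 / (α * (P : ℝ) ^ (c - 1)))) := by ring
  rw [hzero] at h3
  linarith

end Pool.Agent.Y935.RE
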