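import Mathlib
import Pool.Agent.Y935.RE.Asm
import Pool.Agent.Y935.WR.Main

/-!
# Almost all exponents
-/

set_option autoImplicit false

namespace Pool.Agent.Y935.RE

open Finset MeasureTheory Filter
open Pool.Agent.Y935.WR (Jc Wt Vt S_CIRC)
open scoped Topology

/-- the choice of the parameters -/
lemma params {k : ℕ} (hk : 1 ≤ k) {c : ℝ} (hc1 : (k : ℝ) < c) (hc2 : c < k + 1) {r : ℕ}
    (hr : (1 - 1 / c) ^ r < 1 / 2) {ε : ℝ} (hε : 0 < ε) :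
    ∃ β γ c1 c2 : ℝ, 0 < β ∧ β < γ ∧ γ < 1 ∧ (k : ℝ) < c1 ∧ c1 < c ∧ c < c2 ∧ c2 < k + 1 ∧
      β < 1 - 1 / c1 ∧ c2 ≤ (1 + γ) * ∑ j ∈ range r, β ^ j ∧
      r * (c2 - 1 - β * c1) + c2 - γ * c1 ≤ ε := by
  have hk1 : (1 : ℝ) ≤ k := by exact_mod_cast hk
  have hc : 1 < c := by linarith
  have hc0 : 0 < c := by linarith
  obtain ⟨b, hb⟩ : ∃ b : ℝ → ℝ, b = fun t => 1 - 1 / (c - t) - t := ⟨_, rfl⟩
  have hbc : ContinuousAt b 0 := by
    rw [hb]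
    have h1 : ContinuousAt (fun t : ℝ => c - t) 0 := by fun_prop
    have h2 : ContinuousAt (fun t : ℝ => 1 / (c - t)) 0 :=
      ContinuousAt.div continuousAt_const h1 (by simp; linarith)
    exact (continuousAt_const.sub h2).sub continuousAt_id
  have hb0 : b 0 = 1 - 1 / c := by rw [hb]; simp
  have hc3 : 1 / c < 1 := by rw [div_lt_one hc0]; exact hc
  have hc4 : 0 < 1 / c := by positivity
  have hS : c < (1 + 1) * ∑ j ∈ range r, (b 0) ^ j := by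
    have h1 := mul_neg_geom_sum (b 0) r
    rw [hb0] at h1 ⊢
    have h2 : 1 - (1 - 1 / c) = 1 / c := by ring
    rw [h2] at h1
    have h3 : ∑ j ∈ range r, (1 - 1 / c) ^ j = c * (1 - (1 - 1 / c) ^ r) := by
      rw [← h1]
      field_simp
    rw [h3]
    nlinarith
  have hp : Continuous fun x : ℝ => ∑ j ∈ range r, x ^ j := by fun_prop
  have hpb : ContinuousAt (fun t : ℝ => ∑ j ∈ range r, (b t) ^ j) 0 :=
    ContinuousAt.comp (g := fun x : ℝ => ∑ j ∈ range r, x ^ j) hp.continuousAt hbc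
  have h1 : ∀ᶠ t in 𝓝 (0 : ℝ), 0 < b t :=
    continuousAt_const.eventually_lt hbc (by rw [hb0]; linarith)
  have h2 : ∀ᶠ t in 𝓝 (0 : ℝ), b t < 1 - t :=
    hbc.eventually_lt (by fun_prop) (by rw [hb0]; linarith)
  have h3 : ∀ᶠ t in 𝓝 (0 : ℝ), (k : ℝ) < c - t :=
    continuousAt_const.eventually_lt (by fun_prop) (by linarith)
  have h4 : ∀ᶠ t in 𝓝 (0 : ℝ), c + t < (k : ℝ) + 1 :=
    ContinuousAt.eventually_lt (by fun_prop) continuousAt_const (by linarith)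
  have h5 : ∀ᶠ t in 𝓝 (0 : ℝ), c + t < (1 + (1 - t)) * ∑ j ∈ range r, (b t) ^ j := by
    refine ContinuousAt.eventually_lt (by fun_prop) (ContinuousAt.mul (by fun_prop) hpb) ?_
    simpa using hS
  have h6 : ∀ᶠ t in 𝓝 (0 : ℝ), r * ((c + t) - 1 - b t * (c - t)) + (c + t) - (1 - t) * (c - t) < ε := by
    refine ContinuousAt.eventually_lt ?_ continuousAt_const ?_
    · have g1 : ContinuousAt (fun t : ℝ => b t * (c - t)) 0 := hbc.mul (by fun_prop)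
      have g2 : ContinuousAt (fun t : ℝ => (r : ℝ) * ((c + t) - 1 - b t * (c - t))) 0 :=
        continuousAt_const.mul (ContinuousAt.sub (by fun_prop) g1)
      exact (g2.add (by fun_prop)).sub (by fun_prop)
    · rw [hb0]
      have g3 : (1 - 1 / c) * c = c - 1 := by field_simp
      have g4 : (r : ℝ) * ((c + 0) - 1 - (1 - 1 / c) * (c - 0)) + (c + 0) - (1 - 0) * (c - 0) = 0 := by
        rw [sub_zero, g3]
        ring
      rw [g4]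
      exact hε
  have h7 := ((((h1.and h2).and h3).and h4).and h5).and h6
  obtain ⟨t, ⟨⟨⟨⟨⟨h1, h2⟩, h3⟩, h4⟩, h5⟩, h6⟩, ht⟩ :=
    ((h7.filter_mono nhdsWithin_le_nhds).and (self_mem_nhdsWithin (s := Set.Ioi (0 : ℝ)))).exists
  refine ⟨b t, 1 - t, c - t, c + t, h1, h2, by linarith, h3, by linarith, by linarith, h4, ?_,
    h5.le, h6.le⟩
  rw [hb]
  simp only
  linarith

/-- the property of the exponent -/
def FE (c κ : ℝ) (s : ℕ) : Prop := ∀ᶠ τ : ℝ in atTop, ∀ j : ℕ, (2 : ℝ) ^ j ≤ τ ^ κ →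
  ∃ l : List ℕ, l.length = s ∧ (∀ a ∈ l, 1 ≤ a) ∧ vl ((2 : ℝ) ^ j) c l = ⌊(2 : ℝ) ^ j * τ⌋

lemma vl_append (α c : ℝ) (l l' : List ℕ) : vl α c (l ++ l') = vl α c l + vl α c l' := by
  simp [vl]

lemma vl_singleton (α c : ℝ) (a : ℕ) : vl α c [a] = ⌊α * (a : ℝ) ^ c⌋ := by
  simp [vl]

lemma pow_near {c : ℝ} (m : ℕ) : ((2 : ℝ) ^ c) ^ m = ((2 : ℝ) ^ m) ^ c := by
  rw [← Real.rpow_natCast, ← Real.rpow_natCast, ← Real.rpow_mul (by norm_num),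
    ← Real.rpow_mul (by norm_num), mul_comm]

lemma base (hC : S_CIRC) (hL : S_LOW) (hmin : S_MIN) (k : ℕ) (hk : 1 ≤ k) :
    ∃ σ κ : ℝ, 0 < σ ∧ 0 < κ ∧ ∀ (c β γ : ℝ) (r : ℕ), (k : ℝ) < c → c < k + 1 → 0 ≤ β → β ≤ 1 →
      0 ≤ γ → γ ≤ 1 → GoodE β γ r c σ → FE c κ (4 * r + 1) := by
  obtain ⟨σ, hσ, hσ1, h⟩ := count hC hL hmin k hk
  have hk1 : (1 : ℝ) ≤ k := by exact_mod_cast hk
  refine ⟨σ, σ / (2 * ((k : ℝ) + 1)), hσ, by positivity, ?_⟩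
  intro c β γ r hc1 hc2 hβ0 hβ1 hγ0 hγ1 hgood
  have hc : 1 < c := by linarith
  have hc0 : 0 < c := by linarith
  obtain ⟨l₀, hl₀⟩ : ∃ l₀ : ℝ, l₀ = 4 * r * 2 ^ c + 3 := ⟨_, rfl⟩
  obtain ⟨L, hL⟩ : ∃ L : ℝ, L = l₀ * 2 ^ c := ⟨_, rfl⟩
  have h2c : (1 : ℝ) < 2 ^ c := Real.one_lt_rpow (by norm_num) hc0
  have hr0 : (0 : ℝ) ≤ r := Nat.cast_nonneg r
  have hl3 : 3 ≤ l₀ := by
    rw [hl₀]
    have : 0 ≤ 4 * (r : ℝ) * 2 ^ c := by positivity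
    linarith
  have hl0 : 0 < l₀ := by linarith
  have hL0 : 0 < L := by rw [hL]; positivity
  obtain ⟨T, hT⟩ : ∃ T : ℕ, T = ⌈2 * L⌉₊ + 2 := ⟨_, rfl⟩
  have hT2 : 2 ≤ T := by omega
  have hT3 : 2 * L ≤ T := by
    rw [hT]
    push_cast
    have := Nat.le_ceil (2 * L)
    linarith
  have hcount := h c β γ r hc1 hc2 hβ0 hβ1 hγ0 hγ1 hgood T hT2
  have hpowR : Tendsto (fun m : ℕ => (2 : ℝ) ^ m) atTop atTop :=
    tendsto_pow_atTop_atTop_of_one_lt (by norm_num)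
  have e1 : ∀ᶠ m : ℕ in atTop, L ^ (σ / (2 * ((k : ℝ) + 1))) ≤ ((2 : ℝ) ^ m) ^ (σ / 2) :=
    ((tendsto_rpow_atTop (by positivity)).comp hpowR).eventually_ge_atTop _
  obtain ⟨m₀, hm₀⟩ := eventually_atTop.1 (hcount.and e1)
  unfold FE
  filter_upwards [eventually_ge_atTop (l₀ * ((2 : ℝ) ^ c) ^ (m₀ + 1)), eventually_ge_atTop (l₀ : ℝ)]
    with τ hτ hτ1
  intro j hj
  have hτ0 : 0 < τ := by linarith
  obtain ⟨m, hm1, hm2⟩ := exists_nat_pow_near (x := τ / l₀) (y := (2 : ℝ) ^ c)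
    (by rw [le_div_iff₀ hl0]; linarith) h2c
  have hmm : m₀ ≤ m := by
    by_contra hcon
    have h1 : ((2 : ℝ) ^ c) ^ (m + 1) ≤ ((2 : ℝ) ^ c) ^ (m₀ + 1) :=
      pow_le_pow_right₀ h2c.le (by omega)
    have h2 : ((2 : ℝ) ^ c) ^ (m₀ + 1) ≤ τ / l₀ := by
      rw [le_div_iff₀ hl0]
      linarith
    linarith
  obtain ⟨hcnt, e1⟩ := hm₀ m hmm
  obtain ⟨p, hp⟩ : ∃ p : ℝ, p = (2 : ℝ) ^ m := ⟨_, rfl⟩
  have hτlow : l₀ * p ^ c ≤ τ := by
    rw [pow_near, ← hp, le_div_iff₀ hl0] at hm1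
    linarith
  have hτup : τ ≤ L * p ^ c := by
    rw [pow_succ, pow_near, ← hp, div_lt_iff₀ hl0] at hm2
    rw [hL]
    linarith
  have hp1 : 1 ≤ p := by rw [hp]; exact one_le_pow₀ (by norm_num)
  have hp0 : 0 < p := by linarith
  rw [← hp] at hcnt e1
  obtain ⟨α, hα⟩ : ∃ α : ℝ, α = (2 : ℝ) ^ j := ⟨_, rfl⟩
  have hα1 : 1 ≤ α := by rw [hα]; exact one_le_pow₀ (by norm_num)
  have hα0 : 0 < α := by linarith
  have h1 : (2 : ℝ) ^ j ≤ p ^ σ := by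
    calc (2 : ℝ) ^ j ≤ τ ^ (σ / (2 * ((k : ℝ) + 1))) := hj
      _ ≤ (L * p ^ c) ^ (σ / (2 * ((k : ℝ) + 1))) :=
          Real.rpow_le_rpow hτ0.le hτup (by positivity)
      _ = L ^ (σ / (2 * ((k : ℝ) + 1))) * p ^ (c * (σ / (2 * ((k : ℝ) + 1)))) := by
          rw [Real.mul_rpow hL0.le (by positivity), ← Real.rpow_mul hp0.le]
      _ ≤ L ^ (σ / (2 * ((k : ℝ) + 1))) * p ^ (σ / 2) := by
          have h2 : c * (σ / (2 * ((k : ℝ) + 1))) ≤ σ / 2 := by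
            calc c * (σ / (2 * ((k : ℝ) + 1))) ≤ (k + 1) * (σ / (2 * ((k : ℝ) + 1))) := by
                  gcongr
              _ = σ / 2 := by field_simp
          have := Real.rpow_le_rpow_of_exponent_le hp1 h2
          gcongr
      _ ≤ p ^ (σ / 2) * p ^ (σ / 2) := by gcongr
      _ = p ^ σ := by
          rw [← Real.rpow_add hp0]
          congr 1
          ring
  have hpc : 1 ≤ p ^ c := Real.one_le_rpow hp1 hc0.le
  have h2 : (4 * r * 2 ^ c + 2) * ((2 : ℝ) ^ j * p ^ c) ≤ (⌊(2 : ℝ) ^ j * τ⌋ : ℤ) := by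
    have h3 := Int.lt_floor_add_one ((2 : ℝ) ^ j * τ)
    rw [← hα] at h3 ⊢
    have h4 : α * (l₀ * p ^ c) ≤ α * τ := mul_le_mul_of_nonneg_left hτlow hα0.le
    have h5 : (4 * r * 2 ^ c + 2) * (α * p ^ c) = α * (l₀ * p ^ c) - α * p ^ c := by
      rw [hl₀]; ring
    have h6 : 1 ≤ α * p ^ c := by nlinarith
    linarith
  have h6 : ((⌊(2 : ℝ) ^ j * τ⌋ : ℤ) : ℝ) ≤ (2 : ℝ) ^ j * (T * p) ^ c / 2 := by
    refine (Int.floor_le _).trans ?_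
    rw [← hα, mul_div_assoc]
    refine mul_le_mul_of_nonneg_left ?_ hα0.le
    refine hτup.trans ?_
    have hT1 : (1 : ℝ) ≤ T := by exact_mod_cast (by omega : 1 ≤ T)
    rw [Real.mul_rpow (by linarith) hp0.le, le_div_iff₀ (by norm_num)]
    have h7 : L * 2 ≤ (T : ℝ) ^ c := by
      calc L * 2 ≤ T := by linarith
        _ = (T : ℝ) ^ (1 : ℝ) := (Real.rpow_one _).symm
        _ ≤ (T : ℝ) ^ c := Real.rpow_le_rpow_of_exponent_le hT1 hc.le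
    calc L * p ^ c * 2 = (L * 2) * p ^ c := by ring
      _ ≤ (T : ℝ) ^ c * p ^ c := by gcongr
  obtain ⟨x, hx, y, hy, z, hz, hxyz⟩ := hcnt j h1 ⌊(2 : ℝ) ^ j * τ⌋ h2 h6
  have hP1 : (1 : ℝ) ≤ ((2 ^ m : ℕ) : ℝ) := by
    have : 1 ≤ 2 ^ m := Nat.one_le_two_pow
    exact_mod_cast this
  unfold AA at hx hy
  rw [mem_product] at hx hy
  obtain ⟨x1, x2⟩ := mem_blk hP1 hβ0 hβ1 r 1 zero_le_one le_rfl x.1 hx.1
  obtain ⟨x3, x4⟩ := mem_blk hP1 hβ0 hβ1 r γ hγ0 hγ1 x.2 hx.2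
  obtain ⟨y1, y2⟩ := mem_blk hP1 hβ0 hβ1 r 1 zero_le_one le_rfl y.1 hy.1
  obtain ⟨y3, y4⟩ := mem_blk hP1 hβ0 hβ1 r γ hγ0 hγ1 y.2 hy.2
  rw [mem_Ioc] at hz
  refine ⟨x.1 ++ (x.2 ++ (y.1 ++ (y.2 ++ [z]))), ?_, ?_, ?_⟩
  · simp only [List.length_append, List.length_singleton]
    omega
  · intro a ha
    simp only [List.mem_append, List.mem_singleton] at ha
    rcases ha with h | h | h | h | h
    · exact (x2 a h).1
    · exact (x4 a h).1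
    · exact (y2 a h).1
    · exact (y4 a h).1
    · have : 1 ≤ 2 ^ m := Nat.one_le_two_pow
      omega
  · rw [vl_append, vl_append, vl_append, vl_append, vl_singleton, ← hxyz]
    unfold va
    ring

/-- more variables -/
lemma more {c κ κ₁ : ℝ} {s : ℕ} (hκ : 0 < κ) (hκκ : κ < κ₁) (h : FE c κ₁ s) (t : ℕ) :
    FE c κ (s + t) := by
  unfold FE at h ⊢
  obtain ⟨τ₀, hτ₀⟩ := eventually_atTop.1 h
  filter_upwards [eventually_ge_atTop (2 * τ₀), eventually_ge_atTop (2 * (t : ℝ)),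
    eventually_ge_atTop (1 : ℝ),
    (tendsto_rpow_atTop (sub_pos.2 hκκ)).eventually_ge_atTop (2 ^ κ₁)] with τ h1 h2 h3 h4
  intro j hj
  have hτ0 : 0 < τ := by linarith
  have h5 : τ / 2 ≤ τ - t := by linarith
  obtain ⟨l, hl1, hl2, hl3⟩ := hτ₀ (τ - t) (by linarith) j (by
    calc (2 : ℝ) ^ j ≤ τ ^ κ := hj
      _ = τ ^ κ₁ / τ ^ (κ₁ - κ) := by
          rw [← Real.rpow_sub hτ0]
          congr 1
          ring
      _ ≤ τ ^ κ₁ / 2 ^ κ₁ := by gcongr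
      _ = (τ / 2) ^ κ₁ := by rw [Real.div_rpow hτ0.le (by norm_num)]
      _ ≤ (τ - t) ^ κ₁ := Real.rpow_le_rpow (by positivity) h5 (by linarith))
  refine ⟨l ++ List.replicate t 1, by simp [hl1], ?_, ?_⟩
  · intro a ha
    rw [List.mem_append] at ha
    rcases ha with h | h
    · exact hl2 a h
    · rw [List.eq_of_mem_replicate h]
  · rw [vl_append, hl3]
    have h6 : vl ((2 : ℝ) ^ j) c (List.replicate t 1) = t * 2 ^ j := by
      unfold vl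
      rw [List.map_replicate, List.sum_replicate, nsmul_eq_mul, Nat.cast_one, Real.one_rpow, mul_one]
      have h7 : ⌊(2 : ℝ) ^ j⌋ = (2 : ℤ) ^ j := by
        have : (2 : ℝ) ^ j = (((2 : ℤ) ^ j : ℤ) : ℝ) := by push_cast; rfl
        rw [this, Int.floor_intCast]
      rw [h7]
    rw [h6]
    have h8 : (2 : ℝ) ^ j * (τ - t) = (2 : ℝ) ^ j * τ - (((t : ℤ) * 2 ^ j : ℤ) : ℝ) := by
      push_cast
      ring
    rw [h8, Int.floor_sub_intCast]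
    ring

/-- from lists to tuples -/
lemma tuple {α c : ℝ} {l : List ℕ} {s : ℕ} (hl : l.length = s) (h : ∀ a ∈ l, 1 ≤ a) :
    ∃ x : Fin s → ℕ, (∀ i, 1 ≤ x i) ∧ vl α c l = ∑ i, ⌊α * (x i : ℝ) ^ c⌋ := by
  subst hl
  refine ⟨l.get, fun i => h _ (List.get_mem l i), ?_⟩
  unfold vl
  conv_lhs => rw [← List.ofFn_get l]
  rw [List.map_ofFn, List.sum_ofFn]
  rfl

theorem final {c κ : ℝ} {s : ℕ} (hs : 1 ≤ s) (hκ : 0 < κ) (h : FE c (2 * κ) s) :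
    (∀ᶠ n : ℕ in atTop, ∃ x : Fin s → ℕ, (∀ i, 1 ≤ x i) ∧ ∑ i, ⌊(x i : ℝ) ^ c⌋₊ = n) ∧
    (∀ᶠ τ : ℝ in atTop, ∃ x : Fin s → ℕ, (∀ i, 1 ≤ x i) ∧ |∑ i, (x i : ℝ) ^ c - τ| < τ ^ (-κ)) := by
  have hs0 : (0 : ℝ) < s := by exact_mod_cast hs
  constructor
  · have h0 := tendsto_natCast_atTop_atTop (R := ℝ)
    filter_upwards [h0.eventually h, h0.eventually (eventually_ge_atTop (1 : ℝ))] with n h1 h2
    obtain ⟨l, hl1, hl2, hl3⟩ := h1 0 (by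
      rw [pow_zero]
      exact Real.one_le_rpow h2 (by positivity))
    obtain ⟨x, hx1, hx2⟩ := tuple (α := (2 : ℝ) ^ 0) (c := c) hl1 hl2
    refine ⟨x, hx1, ?_⟩
    rw [hl3] at hx2
    simp only [pow_zero, one_mul, Int.floor_natCast] at hx2
    have h3 : ∀ i, ⌊(x i : ℝ) ^ c⌋ = ((⌊(x i : ℝ) ^ c⌋₊ : ℕ) : ℤ) := fun i =>
      (Int.natCast_floor_eq_floor (by positivity)).symm
    simp only [h3] at hx2
    exact_mod_cast hx2.symm
  · have ht : ∀ᶠ τ : ℝ in atTop, 2 * s ≤ τ ^ κ :=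
      (tendsto_rpow_atTop hκ).eventually_ge_atTop _
    filter_upwards [h, ht, eventually_ge_atTop (1 : ℝ)] with τ h1 h2 h3
    have hτ0 : 0 < τ := by linarith
    have hs1 : (1 : ℝ) ≤ s := by exact_mod_cast hs
    have hτκ : 1 ≤ τ ^ κ := by linarith
    obtain ⟨j, hj1, hj2⟩ := exists_nat_pow_near (x := s * τ ^ κ) (y := (2 : ℝ))
      (by nlinarith) (by norm_num)
    obtain ⟨l, hl1, hl2, hl3⟩ := h1 (j + 1) (by
      calc (2 : ℝ) ^ (j + 1) = 2 * 2 ^ j := by ring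
        _ ≤ 2 * (s * τ ^ κ) := by gcongr
        _ = (2 * s) * τ ^ κ := by ring
        _ ≤ τ ^ κ * τ ^ κ := by gcongr
        _ = τ ^ (2 * κ) := by
            rw [← Real.rpow_add hτ0]
            congr 1
            ring)
    obtain ⟨x, hx1, hx2⟩ := tuple (α := (2 : ℝ) ^ (j + 1)) (c := c) hl1 hl2
    refine ⟨x, hx1, ?_⟩
    have h6 := Pool.Agent.Y935.WR.floor_close hs (fun i => (x i : ℝ) ^ c) (α := (2 : ℝ) ^ (j + 1))
      (τ := τ) (by positivity) (by rw [← hx2, hl3])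
    refine h6.trans ?_
    rw [Real.rpow_neg hτ0.le, div_lt_iff₀ (by positivity), inv_mul_eq_div, lt_div_iff₀ (by positivity)]
    exact hj2

/-- the main theorem -/
theorem main (hC : S_CIRC) (hL : S_LOW) (hmin : S_MIN) (hM : S_MV) (k : ℕ) (hk : 1 ≤ k) :
    ∃ κ : ℝ, 0 < κ ∧ ∀ᵐ c : ℝ, (k : ℝ) < c → c < k + 1 → ∀ r s : ℕ, (1 - 1 / c) ^ r < 1 / 2 →
      4 * r + 1 ≤ s →
      (∀ᶠ n : ℕ in atTop, ∃ x : Fin s → ℕ, (∀ i, 1 ≤ x i) ∧ ∑ i, ⌊(x i : ℝ) ^ c⌋₊ = n) ∧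
      (∀ᶠ τ : ℝ in atTop, ∃ x : Fin s → ℕ, (∀ i, 1 ≤ x i) ∧
        |∑ i, (x i : ℝ) ^ c - τ| < τ ^ (-κ)) := by
  obtain ⟨σ, κ, hσ, hκ, h⟩ := base hC hL hmin k hk
  have hk1 : (1 : ℝ) ≤ k := by exact_mod_cast hk
  refine ⟨κ / 4, by positivity, ?_⟩
  have h1 : ∀ r : ℕ, ∀ᵐ c : ℝ, ((k : ℝ) < c ∧ c < k + 1 ∧ (1 - 1 / c) ^ r < 1 / 2) →
      FE c κ (4 * r + 1) := by
    intro r
    rw [ae_iff]
    refine measure_null_of_locally_null _ fun c₀ hc₀ => ?_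
    simp only [Set.mem_ofPred_eq, Classical.not_imp] at hc₀
    obtain ⟨⟨g1, g2, g3⟩, g4⟩ := hc₀
    obtain ⟨β, γ, c1, c2, p1, p2, p3, p4, p5, p6, p7, p8, p9, p10⟩ :=
      params hk g1 g2 g3 (by positivity : 0 < σ / 2)
    refine ⟨{a | ¬ (((k : ℝ) < a ∧ a < k + 1 ∧ (1 - 1 / a) ^ r < 1 / 2) → FE a κ (4 * r + 1))} ∩
      Set.Icc c1 c2, ?_, ?_⟩
    · exact inter_mem_nhdsWithin _ (Icc_mem_nhds p5 p6)
    · have hbc := bc hM p1 p2 p3 (by linarith) (by linarith) p8 p9 (by positivity : 0 < σ / 2) p10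
      rw [ae_restrict_iff' measurableSet_Icc] at hbc
      refine measure_mono_null ?_ (ae_iff.1 hbc)
      rintro c ⟨q1, q2⟩
      simp only [Set.mem_ofPred_eq, Classical.not_imp] at q1 ⊢
      refine ⟨q2, fun q3 => q1.2 ?_⟩
      refine h c β γ r (by linarith [q2.1]) (by linarith [q2.2]) p1.le (by linarith) (by linarith)
        p3.le ?_
      unfold GoodE
      filter_upwards [q3] with m hm
      intro j hj
      refine (hm j hj).trans ?_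
      have h2m : (1 : ℝ) ≤ (2 : ℝ) ^ m := one_le_pow₀ (by norm_num)
      have := Real.rpow_le_rpow_of_exponent_le h2m
        (show -c2 + 2 * (σ / 2) ≤ -c + σ by linarith [q2.2])
      gcongr
  filter_upwards [ae_all_iff.2 h1] with c hc
  intro hc1 hc2 r s hr hs
  have h2 := hc r ⟨hc1, hc2, hr⟩
  obtain ⟨t, rfl⟩ := Nat.exists_eq_add_of_le hs
  exact final (by omega) (by positivity) (more (κ := 2 * (κ / 4)) (by positivity) (by linarith) h2 t)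

/-- the choice `r = ⌈c log 2⌉` -/
lemma r_ok {c : ℝ} (hc : 1 < c) : (1 - 1 / c) ^ ⌈c * Real.log 2⌉₊ < 1 / 2 := by
  have hc0 : 0 < c := by linarith
  have h1 : 1 / c < 1 := by rw [div_lt_one hc0]; exact hc
  have h2 : 0 < 1 / c := by positivity
  have h3 : 1 - 1 / c < Real.exp (-(1 / c)) := by
    have := Real.add_one_lt_exp (x := -(1 / c)) (by linarith)
    linarith
  have hl2 : 0 < Real.log 2 := Real.log_pos (by norm_num)
  have h4 : 0 < ⌈c * Real.log 2⌉₊ := Nat.ceil_pos.2 (by positivity)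
  calc (1 - 1 / c) ^ ⌈c * Real.log 2⌉₊ < (Real.exp (-(1 / c))) ^ ⌈c * Real.log 2⌉₊ :=
        pow_lt_pow_left₀ h3 (by linarith) (by omega)
    _ = Real.exp (-(⌈c * Real.log 2⌉₊ / c)) := by
        rw [← Real.exp_nat_mul]
        congr 1
        ring
    _ ≤ Real.exp (-(Real.log 2)) := by
        apply Real.exp_le_exp.2
        apply neg_le_neg
        rw [le_div_iff₀ hc0, mul_comm]
        exact Nat.le_ceil _
    _ = 1 / 2 := by
        rw [Real.exp_neg, Real.exp_log (by norm_num)]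
        norm_num

end Pool.Agent.Y935.RE
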